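import Pool.Agent.K3h77.SK.Lst

set_option autoImplicit false

/-!
# Skolem Problems for one and for several sequences outside an arbitrarily sparse set of indices

Let `F` be any computable nondecreasing unbounded function, for instance an inverse of the Ackermann
function, and `H` any computable function on the inputs. There is a decidable set `R` of natural
numbers with at most `F N` elements below `N`, such that for all integer linear recurrence sequences
(all orders, also degenerate ones) the zeros outside `R` are computable: an algorithm finds for each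
sequence `u` a finite list `A`, a modulus `T` and a list `B` of residues with
`u n = 0 ↔ n ∈ A ∨ n % T ∈ B` for all `n` outside `R`. And systems are decidable: given two finite
lists of sequences, one can decide whether some `n` outside `R` is a zero of all sequences of the
first list and of no sequence of the second list, and whether there are infinitely many such `n`.
Every `n` in `R` is an isolated zero of a sequence `p` which is given early, `H p ≤ n`.

In the terms of Luca, Ouaknine and Worrell the complement of `R` is a universal Skolem set, of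
density one, with an arbitrarily sparse complement. (Luca, Maynard, Noubissie, Ouaknine and Worrell:
a universal Skolem set of lower density `0.29`, and of density one under the Bateman-Horn
conjecture.)

Proof: the `p`-adic proof of the theorem of Skolem, Mahler and Lech gives a computable bound for the
number of isolated zeros; `R` contains, for each input, its isolated zeros from a (computable) late
moment on (construction of `R`: `Pool/Agent/TH997/SP`, starting files). For systems one needs a
common modulus and a common bound after which each condition depends on the residue class only, and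
numbers outside `R` in all residue classes beyond any bound: this is where `F` is replaced by a
function of at most logarithmic growth (`Pool/Agent/K3h77/SK`).
-/

namespace Pool.Agent.Results.MP_8d13b5_lc.ArbitrarilySparse

open Finset Pool.Agent.H692R2.USS Pool.Agent.TH997.US Pool.Agent.TH997.SP Pool.Agent.K3h77.SK

/-- `u` is the integer linear recurrence sequence given by the input `p = (c, a)`: the list `c` of
coefficients `c_1, ..., c_d`, where `d ≥ 1` and `c_d ≠ 0`, and the list `a` of the `d` initial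
values. -/
def IsSeqOf (p : List ℤ × List ℤ) (u : ℕ → ℤ) : Prop :=
  p.1.length = p.2.length ∧ 1 ≤ p.1.length ∧ p.1.getD (p.1.length - 1) 0 ≠ 0 ∧
    (∀ i, i < p.1.length → u i = p.2.getD i 0) ∧
    ∀ n : ℕ, u (n + p.1.length) =
      ∑ j ∈ Finset.range p.1.length, p.1.getD j 0 * u (n + p.1.length - 1 - j)

/-- `n` is a zero of `u` which lies in no infinite arithmetic progression of zeros -/
def IsolatedZero (u : ℕ → ℤ) (n : ℕ) : Prop := u n = 0 ∧ ∀ b, 0 < b → ∃ l, u (n + b * l) ≠ 0

/-- All members of the list `x.1` are inputs of sequences which vanish at `n`, all members of the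
list `x.2` are inputs of sequences which do not vanish at `n`. -/
def Solves (x : List (List ℤ × List ℤ) × List (List ℤ × List ℤ)) (n : ℕ) : Prop :=
  (∀ p ∈ x.1, ∃ u, IsSeqOf p u ∧ u n = 0) ∧ ∀ q ∈ x.2, ∃ v, IsSeqOf q v ∧ v n ≠ 0

theorem isSeqOf_iff (p : List ℤ × List ℤ) (u : ℕ → ℤ) :
    IsSeqOf p u ↔ Val (cv p) ∧ u = sq (cv p) := by
  constructor
  · rintro ⟨h1, h2, h3, h4, h5⟩
    have hv : Val (cv p) := (val_cv p).2 ⟨h1, h2, h3⟩
    exact ⟨hv, funext ((rec_iff hv u).1 ⟨h4, h5⟩)⟩
  · rintro ⟨hv, rfl⟩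
    obtain ⟨h1, h2, h3⟩ := (val_cv p).1 hv
    obtain ⟨h4, h5⟩ := (rec_iff hv (sq (cv p))).2 fun _ => rfl
    exact ⟨h1, h2, h3, h4, h5⟩

theorem exists_isSeqOf_iff (p : List ℤ × List ℤ) (C : ℤ → Prop) (n : ℕ) :
    (∃ u, IsSeqOf p u ∧ C (u n)) ↔ Val (cv p) ∧ C (sq (cv p) n) := by
  constructor
  · rintro ⟨u, hu, h⟩
    obtain ⟨hv, rfl⟩ := (isSeqOf_iff _ _).1 hu
    exact ⟨hv, h⟩
  · rintro ⟨hv, h⟩
    exact ⟨_, (isSeqOf_iff _ _).2 ⟨hv, rfl⟩, h⟩

theorem forall_mem_iff (L : List (List ℤ × List ℤ)) (Q : List ℤ × List ℤ → Prop) :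
    (∀ p ∈ L, Q p) ↔ ∀ i < L.length, Q (gp L i) := by
  constructor
  · intro h i hi
    unfold gp
    rw [List.getD_eq_getElem _ _ hi]
    exact h _ (List.getElem_mem hi)
  · intro h p hp
    obtain ⟨i, hi, rfl⟩ := List.mem_iff_getElem.1 hp
    have := h i hi
    unfold gp at this
    rwa [List.getD_eq_getElem _ _ hi] at this

theorem solves_iff (x : List (List ℤ × List ℤ) × List (List ℤ × List ℤ)) (n : ℕ) :
    Solves x n ↔ AllVal x ∧ Cond x n := by
  unfold Solves AllVal Cond
  rw [forall_mem_iff, forall_mem_iff]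
  simp only [exists_isSeqOf_iff _ (fun z => z = 0), exists_isSeqOf_iff _ (fun z => z ≠ 0)]
  constructor
  · rintro ⟨h1, h2⟩
    exact ⟨⟨fun i hi => (h1 i hi).1, fun i hi => (h2 i hi).1⟩,
      fun i hi => (h1 i hi).2, fun i hi => (h2 i hi).2⟩
  · rintro ⟨⟨h1, h2⟩, h3, h4⟩
    exact ⟨fun i hi => ⟨h1 i hi, h3 i hi⟩, fun i hi => ⟨h2 i hi, h4 i hi⟩⟩

/-- a computable function of at most logarithmic growth -/
def lg (N : ℕ) : ℕ := Nat.findGreatest (fun k => 2 ^ k ≤ N) N

theorem computable_lg : Computable lg := by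
  have hpow : Primrec₂ (fun a b : ℕ => a ^ b) := Primrec₂.unpaired'.1 Nat.Primrec.pow
  have h1 : Primrec fun x : ℕ × ℕ => 2 ^ x.2 := hpow.comp (Primrec.const 2) Primrec.snd
  have h2 : PrimrecRel (fun N k : ℕ => 2 ^ k ≤ N) := Primrec.nat_le.comp h1 Primrec.fst
  exact (Primrec.nat_findGreatest Primrec.id h2).to_comp

theorem lg_le (N : ℕ) : lg N ≤ Nat.log 2 N := by
  rcases Nat.eq_zero_or_pos N with rfl | hN
  · simp [lg]
  · exact Nat.le_log_of_pow_le (by norm_num)
      (Nat.findGreatest_spec (P := fun k => 2 ^ k ≤ N) (Nat.zero_le N) (by simpa using! hN))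

theorem lg_mono : Monotone lg := fun _ _ h =>
  Nat.findGreatest_mono (fun _ hk => le_trans hk h) h

theorem lg_unb (B : ℕ) : B ≤ lg (2 ^ B) :=
  Nat.le_findGreatest (P := fun k => 2 ^ k ≤ 2 ^ B) Nat.lt_two_pow_self.le le_rfl

/-- **Result.** -/
theorem result (F : ℕ → ℕ) (hF : Computable F) (hmono : Monotone F) (hunb : ∀ B, ∃ N, B ≤ F N)
    (H : List ℤ × List ℤ → ℕ) (hH : Computable H) :
    ∃ R : Set ℕ, ComputablePred (fun n => n ∈ R) ∧
      (∀ N : ℕ, (R ∩ Set.Iio N).ncard ≤ F N) ∧
      (∀ n ∈ R, ∃ p u, IsSeqOf p u ∧ IsolatedZero u n ∧ H p ≤ n) ∧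
      (∃ (A B : List ℤ × List ℤ → List ℕ) (T : List ℤ × List ℤ → ℕ),
        Computable A ∧ Computable B ∧ Computable T ∧
        ∀ p u, IsSeqOf p u → (∀ n, n ∈ A p ↔ n ∉ R ∧ IsolatedZero u n) ∧ 0 < T p ∧
          ∀ n, n ∉ R → (u n = 0 ↔ n ∈ A p ∨ n % T p ∈ B p)) ∧
      ComputablePred (fun x : List (List ℤ × List ℤ) × List (List ℤ × List ℤ) =>
        ∃ n, n ∉ R ∧ Solves x n) ∧
      ComputablePred (fun x : List (List ℤ × List ℤ) × List (List ℤ × List ℤ) =>
        {n | n ∉ R ∧ Solves x n}.Infinite) := by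
  classical
  set G : ℕ → ℕ := fun N => min (F N) (lg N) with hG
  have hGc : Computable G := (Primrec.nat_min.to_comp).comp hF computable_lg
  have hGm : Monotone G := fun a b h => min_le_min (hmono h) (lg_mono h)
  have hGl : ∀ N, G N ≤ Nat.log 2 N := fun N => (min_le_right _ _).trans (lg_le N)
  have hGu : ∀ B, ∃ N, B ≤ G N := fun B => by
    obtain ⟨N, hN⟩ := hunb B
    exact ⟨max N (2 ^ B), le_min (hN.trans (hmono (le_max_left _ _)))
      ((lg_unb B).trans (lg_mono (le_max_right _ _)))⟩
  set H' : ℕ → ℕ := fun j => H (Denumerable.ofNat (List ℤ × List ℤ) j) with hH'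
  have hHc : Computable H' := hH.comp (Primrec.to_comp (Primrec.ofNat (List ℤ × List ℤ)))
  have hcard : ∀ N, ((range N).filter (fun n => RR G H' n)).card ≤ G N :=
    RR_card (H := H') hGm hGu
  refine ⟨{n | RR G H' n}, cp_RR hGc hHc hGm hGu, fun N => ?_, fun n hn => ?_, ?_, ?_, ?_⟩
  · have e : ({n | RR G H' n} ∩ Set.Iio N : Set ℕ) =
        (((range N).filter (fun n => RR G H' n) : Finset ℕ) : Set ℕ) := by
      ext n
      simp [and_comm]
    rw [e, Set.ncard_coe_finset]
    exact (hcard N).trans (min_le_left _ _)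
  · obtain ⟨p, h1, h2⟩ := (RR_iff (H := H') hGm hGu n).1 hn
    have hv : Val (cv p) := h2.1
    refine ⟨p, sq (cv p), (isSeqOf_iff _ _).2 ⟨hv, rfl⟩, (spor_iff hv n).1 h2, ?_⟩
    have h3 := (NN_spec (H := H') hGm hGu (Encodable.encode p)).1
    have h4 : H' (Encodable.encode p) = H p := by
      rw [hH']
      simp only [Denumerable.ofNat_encode]
    rw [h4] at h3
    exact ((le_max_right _ _).trans h3).trans h1
  · obtain ⟨A, B, T, hA, hB, hT, h⟩ := exists_descr hGc hHc hGm hGu
    refine ⟨A, B, T, hA, hB, hT, fun p u hu => ?_⟩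
    obtain ⟨hv, rfl⟩ := (isSeqOf_iff _ _).1 hu
    obtain ⟨h1, h2, h3⟩ := h p hv
    refine ⟨fun n => ?_, h2, h3⟩
    rw [h1, spor_iff hv]
    rfl
  · refine (cp_sys hGc hHc hGm hGu hGl).of_eq fun x => ?_
    constructor
    · rintro ⟨hx, n, h1, h2⟩
      exact ⟨n, h1, (solves_iff x n).2 ⟨hx, h2⟩⟩
    · rintro ⟨n, h1, h2⟩
      obtain ⟨hx, h3⟩ := (solves_iff x n).1 h2
      exact ⟨hx, n, h1, h3⟩
  · refine (cp_sys_inf hGc hHc hGm hGu hGl).of_eq fun x => ?_
    constructor
    · rintro ⟨hx, h⟩
      refine Set.infinite_of_not_bddAbove fun ⟨b, hb⟩ => ?_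
      obtain ⟨n, h1, h2, h3⟩ := h (b + 1)
      have := hb (show n ∈ {n | n ∉ {n | RR G H' n} ∧ Solves x n} from
        ⟨h2, (solves_iff x n).2 ⟨hx, h3⟩⟩)
      omega
    · intro h
      obtain ⟨n0, hn0⟩ := h.nonempty
      refine ⟨((solves_iff x n0).1 hn0.2).1, fun N => ?_⟩
      obtain ⟨n, h1, h2⟩ := h.exists_gt N
      exact ⟨n, h2.le, h1.1, ((solves_iff x n).1 h1.2).2⟩

end Pool.Agent.Results.MP_8d13b5_lc.ArbitrarilySparse
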