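import Pool.Agent.K3h9.LW.Main
import Pool.Agent.TH997.DD.CLE
import Pool.Agent.TH997.DD.CLT
import Pool.Agent.TH997.DD.TAM
import Pool.Agent.TH997.DD.GRW
import Pool.Agent.TH997.DD.REM
import Pool.Agent.TH997.DD.LIO
import Pool.Agent.TH997.DD.EXC
import Pool.Agent.TH997.DD.RESC
import Pool.Agent.TH997.DD.ASYM
import Pool.Agent.TH997.DD.CTE
import Pool.Agent.TH997.DD.NV
import Pool.Agent.TH286.GT.All

/-!
# Nonpositive terms of linear recurrences: bounded gaps, or boundedly many in windows of length log N

The Positivity Problem (are all terms of a linear recurrence sequence positive?) is the companion of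
the Skolem Problem, which reduces to it: `u_n ≠ 0` for all `n` if and only if `u_n ^ 2 > 0` for all
`n`; more generally `|u_n| > |v_n|` for all `n` if and only if `u_n ^ 2 - v_n ^ 2 > 0` for all `n`.
For EVERY rational linear recurrence sequence `u` (any order, multiple characteristic roots allowed)
exactly one of the following is true:

* the set of the indices `n` with `u_n ≤ 0` has bounded gaps;
* there is a constant `Z` such that each interval `[N, N + log N]` contains at most `Z` of them, so
  that there are at most `C N / log N` of them below `N`.

A polynomial-time reduction to the existential theory of the reals decides which of them holds, and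
it also decides ultimate positivity for all recurrences which are not tight, or whose multiple roots
are small (for instance all simple recurrences), or which are tame along all sufficiently divisible
progressions.

Proof. A certificate (a point of the torus of the dominant part, along a residue class, at which the
dominant part is negative or vanishes identically) gives bounded gaps, by Kronecker's theorem with
bounded gaps. Without certificates the dominant part `∑ a_i μ_i ^ t` is a nonnegative and not
identically vanishing exponential sum with unimodular bases along every residue class, and at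
nonpositive terms it is `O(1 / t)`. If there are more than `Z` of them in a window of length
`Y ≤ c log t`, then a generalised Vandermonde determinant `det (μ_i ^ (t_j))` with exponents from
this set does not vanish, since an exponential sum with fixed bases and arbitrary coefficients has at
most `Z` zeros (Skolem's p-adic method). After division by the first power its height is `O(Y)`, so
its absolute value is at least `t ^ (-1/2)` for small `c`, and by Cramer's rule all `a_i` are
`O(t ^ (-1/2))`, a contradiction for large `t`. (New files: `Pool.Agent.K3h9.LW`; the reduction to
the dominant part, the certificates, the number of zeros and the height of the determinant are in the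
library `Pool.Agent.TH997`, `Pool.Agent.H612.LR`, `Pool.Agent.TH286.GT`.)
-/

set_option autoImplicit false

namespace Pool.Agent.Results.MP_8d13b5_lc.BoundedGapsOrLogSparse

open Pool.Agent.NPC Pool.Agent.NPC.ER Pool.Agent.H612.LR Pool.Agent.TH997.DD
  Pool.Agent.TH286.GT.Main Pool.Agent.K3h9.LW

theorem snds' : SNDS := snds krs

theorem cle' : CLE := cle resa resb (resc lio) (cte rem)

theorem clt' : CLT := clt resa (tam asym nv (resc lio)) grw

/-- **Bounded gaps, or boundedly many in all windows of logarithmic length.** For every nonempty
instance `l` exactly one of `Synd l` (the indices of the nonpositive terms have bounded gaps) and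
`Few l` (every interval `[N, N + 1 + log N]` contains a bounded number of them) holds, and in the
second case there are `O(N / log N)` of them below `N`. There is a polynomial-time reduction `f` to
the existential theory of the reals which decides `Synd l`, and which decides the failure of ultimate
positivity for non-tight recurrences, for recurrences whose multiple roots are small, and for tame
recurrences. -/
theorem result :
    (∀ l : Rec, l ≠ [] → (Synd l ∧ ¬ Few l) ∨ (Few l ∧ ¬ Synd l)) ∧
    (∀ l : Rec, Few l → ∃ C : ℝ, ∀ N : ℕ, 2 ≤ N →
      (((Finset.range N).filter (fun n => seq l n ≤ 0)).card : ℝ) ≤ C * (N / Real.log N)) ∧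
    ∃ f : List Bool → Fm, PolyTime (fun w => bits (f w)) ∧ ∀ l : Rec, l ≠ [] →
      (ETR (f (bits l)) ↔ Synd l) ∧
      ((NonTight l ∨ SmallMultipleRoots l ∨ Tame l) → (ETR (f (bits l)) ↔ ¬ UltPositive l)) := by
  have hex : ∀ l : Rec, Synd l → ¬ Few l := fun l h1 h2 => exc l h1 (sparse_of_few l h2)
  refine ⟨fun l hl => ?_, fun l h => ?_, ?_⟩
  · by_cases h : Synd l
    · exact Or.inl ⟨h, hex l h⟩
    · exact Or.inr ⟨few_of_not_synd l hl h, h⟩
  · obtain ⟨C, _, hC⟩ := few_density l h
    exact ⟨C, hC⟩
  · obtain ⟨f, hf, h⟩ := Fin2.main_str snds' cle' clt'
    have hnup : ∀ l : Rec, Synd l → ¬ UltPositive l := by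
      rintro l ⟨b, hb⟩ ⟨N, hN⟩
      obtain ⟨n, hn, _, hn'⟩ := hb N
      exact absurd (hN n hn) (not_lt.2 hn')
    refine ⟨f, hf, fun l hl => ?_⟩
    obtain ⟨h1, h2, h3⟩ := h l hl
    refine ⟨⟨h1, fun hs => ?_⟩, fun hc => ⟨fun he => hnup l (h1 he), fun hn => h3 hc hn⟩⟩
    by_contra he
    exact exc l hs (h2 he)

end Pool.Agent.Results.MP_8d13b5_lc.BoundedGapsOrLogSparse
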