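import Pool.Agent.K3h11.MK.Fin

set_option autoImplicit false

/-!
# The Skolem Problem for almost all Markov chains

The Markov Reachability Problem (given a rational stochastic matrix `P`, is `(P ^ n) i j = a / b` for
some `n`?) is equivalent to the Skolem Problem (Akshay, Antonopoulos, Ouaknine, Worrell 2015). Here
the transition matrix `P = M / N` is random: the row sums of `M` are all equal to `N`.

1. Uniform distribution: for all but a proportion `N ^ (-δ)` of the stochastic matrices `P` with
   denominator `N`, of any size `d ≥ 2`, the following holds simultaneously for ALL initial vectors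
   `μ` with integer coordinates of absolute value at most `N ^ δ` and nonzero sum, and ALL integer
   polynomials `G` in the coordinates of `D + 1` consecutive distributions, of degree at most `r` in
   each variable, with coefficients of absolute value at most `N ^ δ` and `G(μ, ..., μ) ≠ 0`:
   `G(μ P ^ n, μ P ^ (n + 1), ..., μ P ^ (n + D)) ≠ 0` for all `n ≥ 0`. This is certified by a prime
   `p ≤ (log N) ^ A`, which does not divide `N`, and modulo which the distributions `μ P ^ n` have
   period `p - 1` and `G` is never zero on them. In particular `(P ^ n) i j ≠ a / b` for all `n`,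
   `i`, `j` and all fractions `a / b` of height at most `N ^ δ` (apart from the value `1` for `i = j`
   and the value `0` for `i ≠ j`, which occur for `n = 0`).
2. Smoothed analysis: the same for `P = M / N` when the entries of `M` off the diagonal are within `H`
   of those of an arbitrary matrix `B`, where `N` is at most any fixed power of `H`: all but a
   proportion `H ^ (-δ)` of these `M`.

The condition `G(μ, ..., μ) ≠ 0` only says that the identity matrix is not a solution; it is the
condition that `n = 0` is not a solution if `D = 0`.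

The starting results on random coefficients, initial values or matrices do not apply: the stochastic
matrices are a null set among all matrices, all of them have the eigenvalue `1`, and the terms of
the sequences are not integers.

Proof idea. Let `l = 2 (D + 1) d r` and let `p` be a prime congruent to `1` modulo `l`, which does
not divide `N`, the sum of `μ` and `G(μ, ..., μ)`. Modulo `p` let `g` map the first unit vector to the
vector `1` of row sums, and the functional `μ` to a multiple of the first coordinate. Then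
`g⁻¹ P g` has the first column `(1, 0)`, first row `(1, ω)` and a block `B`, where `ω` and `B` are
arbitrary and determine `P`. A positive proportion of the `B` has only eigenvalues which are distinct
`l`-th powers different from `1`; then the sums `1 + B + ... + B ^ (n - 1)` have period `(p - 1) / l`.
For fixed `B` the vector `μ P ^ n` depends affinely on `ω`, and it is `μ` for `ω = 0`. So for each of
the `(p - 1) / l` residues `n` the value of `G` is a polynomial in `ω`, of degree at most
`(D + 1) d r`, which is not zero for `ω = 0`; it vanishes on at most a proportion `(D + 1) d r / p`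
of the `ω`, as one sees on the lines through `0`. So for at least half of the `ω` it is zero for no
`n`. The sieve of the starting files gives a power saving for each `(μ, G)`, and there are few
pairs of small height.

The counting of matrices with given eigenvalues and the transitivity lemma are from the starting
files (`R77.Orb`, `TH838.SK`), and so is the second moment sieve (`H684R3.Smo`, `H884R2.Sko`).
-/

namespace Pool.Agent.Results.MP_8d13b5_lc.MarkovChains

open Matrix Finset
open Pool.Agent.K3h11.MK (scl win Cert GenP numer clear smoothed uniform box)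

/-- The matrix `P = M / N` over the field `F`: the transition matrix for `F = ℚ`, its reduction modulo
the prime `p` for `F = ZMod p` if `p` does not divide `N`. -/
def chain (F : Type) [Field F] {d : ℕ} (N : ℕ) (M : Matrix (Fin d) (Fin d) ℤ) :
    Matrix (Fin d) (Fin d) F :=
  (N : F)⁻¹ • M.map (Int.cast : ℤ → F)

/-- The distribution `μ P ^ n` at the time `n`. -/
def law {F : Type} [Field F] {d : ℕ} (P : Matrix (Fin d) (Fin d) F) (μ : Fin d → ℤ) (n : ℕ) :
    Fin d → F :=
  (fun i => (μ i : F)) ᵥ* P ^ n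

/-- The value at `(y 0, ..., y D)`, where `y k` is a vector with `d` coordinates, of the polynomial
`G` with the integer coefficients `c m`, of degree at most `r` in each of the `(D + 1) d` variables. -/
def value {F : Type} [Field F] {d D r : ℕ} (c : (Fin (D + 1) × Fin d → Fin (r + 1)) → ℤ)
    (y : ℕ → Fin d → F) : F :=
  ∑ m, (c m : F) * ∏ x : Fin (D + 1) × Fin d, y x.1 x.2 ^ (m x : ℕ)

/-- A certificate, of size at most `Y`, that `G(μ P ^ n, ..., μ P ^ (n + D))` is never zero: a prime
`p ≤ Y` which does not divide `N`, and modulo which the sequence `μ P ^ n` has period `p - 1` and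
no value of `G` is zero. -/
def Certified {d D r : ℕ} (Y : ℝ) (N : ℕ) (M : Matrix (Fin d) (Fin d) ℤ) (μ : Fin d → ℤ)
    (c : (Fin (D + 1) × Fin d → Fin (r + 1)) → ℤ) : Prop :=
  ∃ p : ℕ, ∃ _ : Fact p.Prime, (p : ℝ) ≤ Y ∧ ¬ p ∣ N ∧
    (∀ n, law (chain (ZMod p) N M) μ (n + (p - 1)) = law (chain (ZMod p) N M) μ n) ∧
    ∀ n, value c (fun k => law (chain (ZMod p) N M) μ (n + k)) ≠ 0

/-- For the chain `P = M / N`, all vectors `μ` of size at most `X` with nonzero sum and all
polynomials `G` with coefficients at most `X` and `G(μ, ..., μ) ≠ 0` it is true, and certified by a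
prime at most `Y`, that `G(μ P ^ n, ..., μ P ^ (n + D)) ≠ 0` for all `n`. In particular
`b (P ^ n) i j ≠ a` for all `n`, `i`, `j` and all integers `a`, `b` of size at most `X`, if this holds
for `n = 0`. -/
def Avoids {d : ℕ} (D r : ℕ) (X Y : ℝ) (N : ℕ) (M : Matrix (Fin d) (Fin d) ℤ) : Prop :=
  (∀ (μ : Fin d → ℤ) (c : (Fin (D + 1) × Fin d → Fin (r + 1)) → ℤ),
    (∀ i, |(μ i : ℝ)| ≤ X) → (∀ m, |(c m : ℝ)| ≤ X) → ∑ i, μ i ≠ 0 →
    value c (fun _ i => (μ i : ℚ)) ≠ 0 →
      (∀ n, value c (fun k => law (chain ℚ N M) μ (n + k)) ≠ 0) ∧ Certified Y N M μ c) ∧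
  ∀ (i j : Fin d) (a b : ℤ), |(a : ℝ)| ≤ X → |(b : ℝ)| ≤ X →
    b * (1 : Matrix (Fin d) (Fin d) ℤ) i j ≠ a → ∀ n, (b : ℚ) * ((chain ℚ N M) ^ n) i j ≠ a

/-- The linear polynomial `b * y 0 j - a`. -/
theorem value_linear {d D r : ℕ} (hr : 1 ≤ r) (j : Fin d) (a b : ℤ) (X : ℝ) (ha : |(a : ℝ)| ≤ X)
    (hb : |(b : ℝ)| ≤ X) :
    ∃ c : (Fin (D + 1) × Fin d → Fin (r + 1)) → ℤ, (∀ m, |(c m : ℝ)| ≤ X) ∧
      ∀ (y : ℕ → Fin d → ℚ), value c y = b * y 0 j - a := by
  classical
  set o : Fin (r + 1) := ⟨1, by omega⟩ with ho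
  set m₁ : Fin (D + 1) × Fin d → Fin (r + 1) := fun x => if x = (0, j) then o else 0 with hm₁
  have hne : m₁ ≠ 0 := by
    intro h
    have h1 := congrFun h (0, j)
    rw [hm₁] at h1
    simp only [if_true, Pi.zero_apply] at h1
    have h2 := congrArg Fin.val h1
    rw [ho] at h2
    simp at h2
  refine ⟨fun m => if m = m₁ then b else if m = 0 then -a else 0, ?_, ?_⟩
  · intro m
    dsimp only
    split_ifs
    · exact hb
    · push_cast; rw [abs_neg]; exact ha
    · simpa using (abs_nonneg _).trans ha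
  · intro y
    unfold value
    rw [Finset.sum_eq_add m₁ 0 hne]
    · beta_reduce
      rw [if_pos rfl, if_neg hne.symm, if_pos rfl]
      have h1 : ∏ x : Fin (D + 1) × Fin d, y x.1 x.2 ^ ((m₁ x : Fin (r + 1)) : ℕ) = y 0 j := by
        rw [Finset.prod_eq_single (0, j)]
        · rw [hm₁]
          simp [ho]
        · intro x _ hx
          rw [hm₁]
          simp [hx]
        · intro h; exact absurd (mem_univ _) h
      have h2 : ∏ x : Fin (D + 1) × Fin d,
          y x.1 x.2 ^ (((0 : Fin (D + 1) × Fin d → Fin (r + 1)) x : Fin (r + 1)) : ℕ) = 1 := by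
        refine Finset.prod_eq_one fun x _ => ?_
        simp
      rw [h1, h2]
      push_cast
      ring
    · rintro m _ ⟨h1, h2⟩
      beta_reduce
      rw [if_neg h1, if_neg h2]
      simp
    · intro h; exact absurd (mem_univ _) h
    · intro h; exact absurd (mem_univ _) h

theorem avoids_of {d D r N : ℕ} {X Y : ℝ} {M : Matrix (Fin d) (Fin d) ℤ} (hr : 1 ≤ r) (hX : 1 ≤ X)
    (hN : N ≠ 0) (h : GenP D r X Y N M) : Avoids D r X Y N M := by
  have h1 : ∀ (μ : Fin d → ℤ) (c : (Fin (D + 1) × Fin d → Fin (r + 1)) → ℤ),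
      (∀ i, |(μ i : ℝ)| ≤ X) → (∀ m, |(c m : ℝ)| ≤ X) → ∑ i, μ i ≠ 0 →
      value c (fun _ i => (μ i : ℚ)) ≠ 0 →
        (∀ n, value c (fun k => law (chain ℚ N M) μ (n + k)) ≠ 0) ∧ Certified Y N M μ c := by
    intro μ c hμ hc hs hv
    have hv' : ∑ m, c m * ∏ x : Fin (D + 1) × Fin d, μ x.2 ^ (m x : ℕ) ≠ 0 := by
      intro h0
      apply hv
      unfold value
      have := congrArg (Int.cast : ℤ → ℚ) h0
      push_cast at this
      exact this
    have hcert := h μ c hμ hc hs hv'
    refine ⟨fun n => hcert.ne_zero hN n, ?_⟩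
    obtain ⟨p, hp, hpY, hpN, hper, hval⟩ := hcert
    refine ⟨p, hp, hpY, hpN, fun n => ?_, fun n => hval n⟩
    funext k
    have h2 := congrFun (hper n) (0, k)
    unfold win at h2
    simp only [Fin.val_zero, add_zero] at h2
    exact h2
  refine ⟨h1, ?_⟩
  intro i j a b ha hb hab n
  obtain ⟨c, hc, hcv⟩ := value_linear (D := D) hr j a b X ha hb
  have hμ : ∀ k, |((Pi.single i (1 : ℤ) : Fin d → ℤ) k : ℝ)| ≤ X := by
    intro k
    by_cases hk : k = i
    · subst hk; simpa using hX
    · rw [Pi.single_eq_of_ne hk]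
      simp only [Int.cast_zero, abs_zero]
      linarith
  have hs : ∑ k, (Pi.single i (1 : ℤ) : Fin d → ℤ) k ≠ 0 := by
    simp
  have hv : value c (fun _ k => (((Pi.single i (1 : ℤ) : Fin d → ℤ) k : ℤ) : ℚ)) ≠ 0 := by
    rw [hcv]
    intro h0
    apply hab
    have h2 : (1 : Matrix (Fin d) (Fin d) ℤ) i j = (Pi.single i (1 : ℤ) : Fin d → ℤ) j := by
      rw [Matrix.one_apply, Pi.single_apply]
      simp only [eq_comm]
    rw [h2]
    have h3 : ((b * (Pi.single i (1 : ℤ) : Fin d → ℤ) j : ℤ) : ℚ) = (a : ℤ) := by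
      push_cast
      linarith
    exact_mod_cast h3
  have h4 := (h1 (Pi.single i 1) c hμ hc hs hv).1 n
  rw [hcv] at h4
  intro h5
  apply h4
  have h6 : law (chain ℚ N M) (Pi.single i (1 : ℤ) : Fin d → ℤ) (n + 0) j =
      ((chain ℚ N M) ^ n) i j := by
    unfold law
    have h7 : (fun k => (((Pi.single i (1 : ℤ) : Fin d → ℤ) k : ℤ) : ℚ)) = Pi.single i (1 : ℚ) := by
      funext k
      by_cases hk : k = i
      · subst hk; simp
      · rw [Pi.single_eq_of_ne hk, Pi.single_eq_of_ne hk]; simp
    rw [h7, Matrix.single_one_vecMul, add_zero]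
    rfl
  rw [h6, h5, sub_self]

theorem result (d D r : ℕ) (hd : 2 ≤ d) (hr : 1 ≤ r) :
    ∃ A : ℝ, 0 < A ∧
      -- 1. the uniform distribution on the stochastic matrices with denominator `N`
      (∃ δ : ℝ, 0 < δ ∧ ∃ N₀ : ℕ, ∀ N : ℕ, N₀ ≤ N →
        ∃ E : Finset (Matrix (Fin d) (Fin d) ℕ),
          (E.card : ℝ) ≤ (N : ℝ) ^ (-δ) *
            (Nat.card {M : Matrix (Fin d) (Fin d) ℕ // ∀ i, ∑ j, M i j = N} : ℝ) ∧
          ∀ M : Matrix (Fin d) (Fin d) ℕ, (∀ i, ∑ j, M i j = N) → M ∉ E →
            Avoids D r ((N : ℝ) ^ δ) (Real.log N ^ A) N (M.map (Nat.cast : ℕ → ℤ))) ∧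
      -- 2. perturbations, of size `H`, of an arbitrary matrix `B`; the row sums are `N ≤ H ^ C`
      ∀ C : ℝ, 0 ≤ C → ∃ δ : ℝ, 0 < δ ∧ ∃ H₀ : ℕ, ∀ H : ℕ, H₀ ≤ H →
        ∀ N : ℕ, 1 ≤ N → (N : ℝ) ≤ (H : ℝ) ^ C → ∀ B : Matrix (Fin d) (Fin d) ℤ,
        ∃ E : Finset (Matrix (Fin d) (Fin d) ℤ),
          (E.card : ℝ) ≤ (2 * (H : ℝ) + 1) ^ (d * (d - 1)) * (H : ℝ) ^ (-δ) ∧
          ∀ M : Matrix (Fin d) (Fin d) ℤ, (∀ i, ∑ j, M i j = N) →
            (∀ i j, i ≠ j → |M i j - B i j| ≤ H) → M ∉ E →
            Avoids D r ((H : ℝ) ^ δ) (Real.log H ^ A) N M := by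
  obtain ⟨e, rfl⟩ : ∃ e, d = e + 1 := ⟨d - 1, by omega⟩
  have he : 1 ≤ e := by omega
  obtain ⟨A, hA, hsm⟩ := smoothed e D r he
  refine ⟨A, hA, ?_, ?_⟩
  · obtain ⟨δ, hδ, N₀, hun⟩ := uniform e D r he A (hsm 1 zero_le_one)
    refine ⟨δ, hδ, max 1 N₀, fun N hN => ?_⟩
    have hN1 : 1 ≤ N := (le_max_left _ _).trans hN
    have hNr : (1 : ℝ) ≤ N := by exact_mod_cast hN1
    obtain ⟨E, hE1, hE2⟩ := hun N ((le_max_right _ _).trans hN)
    refine ⟨E, hE1, fun M hM hME => ?_⟩
    exact avoids_of hr (Real.one_le_rpow hNr hδ.le) (by omega) (hE2 M hM hME)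
  · intro C hC
    obtain ⟨δ, hδ, H₀, h⟩ := hsm C hC
    refine ⟨δ, hδ, max 1 H₀, fun H hH N hN1 hN B => ?_⟩
    have hH1 : 1 ≤ H := (le_max_left _ _).trans hH
    have hHr : (1 : ℝ) ≤ H := by exact_mod_cast hH1
    obtain ⟨E, hE1, hE2⟩ := h H ((le_max_right _ _).trans hH) N hN1 hN B
    refine ⟨E, hE1, fun M hM hMB hME => ?_⟩
    exact avoids_of hr (Real.one_le_rpow hHr hδ.le) (by omega) (hE2 M hM hMB hME)

end Pool.Agent.Results.MP_8d13b5_lc.MarkovChains
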