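import Pool.Agent.K3h1.PS.Main

set_option autoImplicit false

/-!
# The Skolem Problem for the values of a fixed recurrence

Fix a recurrence with squarefree characteristic polynomial (any order, any number of dominant roots).

(1) For almost all integers `k` the Skolem Problem for the sequences `u - k` is easy: in every
interval of length `2 H` all but a proportion `H ^ (-δ)` of the integers `k` have the following
property, for ALL sequences `u` which satisfy the recurrence and have initial values in a prescribed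
box of side `2 H ^ δ`, with arbitrary centre: some prime `p ≤ (log H) ^ A` divides no number
`u_n - k`. So `k` is not a value of `u`, and this has a certificate of polylogarithmic size.

(2) More generally, let `u_1, ..., u_s` satisfy the recurrence and consider the sequences
`v_n = ∑_m G_m(u_j(n + i)) k^m` which depend polynomially on integer parameters `k = (k_1, ..., k_t)`,
where one of the coefficients `G_m` is a nonzero constant. For all but a proportion `H ^ (-δ)` of the
`k` in a box of side `2 H`, all these sequences (all initial values in a prescribed box of side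
`2 H ^ δ`, all polynomials of degree at most `r` with coefficients at most `H ^ δ`) are certified to
have no zero term by primes `p ≤ (log H) ^ A`, and one errorless algorithm recognises them.

In the results of the starting files the initial values are random; here the sequences are fixed
or arbitrary, and only the parameters `k` (for instance one integer) are random.

Proof idea. Modulo a prime `p` for which the characteristic polynomial splits and the roots are
`l`-th powers, where `l = 2 (t r + 1)`, there are at most `(p - 1) / l` states; for each of them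
the polynomial in `k` is not zero, so it vanishes for at most `t r p ^ (t - 1)` residues. Hence at
least half of the parameters modulo `p` are good, whatever the initial values are. The number of
these primes up to `y` is at least `y ^ θ`. The second moment sieve of `SmoothedAnalysis`, in a form
uniform in the sets of residues, gives a power saving, and a union bound the uniformity.
-/

namespace Pool.Agent.Results.MP_8d13b5_lc.ValuesOfRecurrences

open Pool.Agent.H684R3.Smo Pool.Agent.H884R2.Sko Pool.Agent.H692R2.USS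
open Pool.Agent.K3h1.PS (val2 Easy0 AdmAt main)

/-- The value at `(k, y)` of the polynomial with the integer coefficients `w`, of degree at most
`r` in each variable: `∑ w_(m,f) k^m y^f`. -/
def value {s t d r : ℕ} (w : (Fin t → Fin (r + 1)) × (Fin s × Fin d → Fin (r + 1)) → ℤ)
    (k : Fin t → ℤ) (y : Fin s × Fin d → ℤ) : ℤ :=
  ∑ e, w e * ((∏ i, k i ^ (e.1 i : ℕ)) * ∏ q, y q ^ (e.2 q : ℕ))

/-- Written as a polynomial in `k`, with coefficients which are polynomials in `y`, one of the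
coefficients is a nonzero constant. -/
def HasConstantCoefficient {s t d r : ℕ}
    (w : (Fin t → Fin (r + 1)) × (Fin s × Fin d → Fin (r + 1)) → ℤ) : Prop :=
  ∃ m, w (m, 0) ≠ 0 ∧ ∀ f, f ≠ 0 → w (m, f) = 0

/-- Some prime `p ≤ Y` divides no term of `v`, and `v` has period `p - 1` modulo `p`. -/
def Certified (Y : ℝ) (v : ℕ → ℤ) : Prop :=
  ∃ p : ℕ, p.Prime ∧ (p : ℝ) ≤ Y ∧ ∀ n, ¬ (p : ℤ) ∣ v n ∧ (p : ℤ) ∣ v (n + (p - 1)) - v n

/-- The sequence `v` has no zero term, this has a certificate, and the function `f` returns `true`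
on every input which codes `v` as a linear recurrence sequence. -/
def IsEasy (f : ℕ × (List (ℕ × ℕ) × List (ℕ × ℕ)) → Bool) (Y : ℝ) (v : ℕ → ℤ) : Prop :=
  (∀ n, v n ≠ 0) ∧ Certified Y v ∧ ∀ z, IsLRS z v → f (⌊Y⌋₊, z) = true

/-- `k` is easy for all sequences which satisfy the recurrence `c` and have initial values at
distance at most `X` from `a₀`. -/
def EasyValue (f : ℕ × (List (ℕ × ℕ) × List (ℕ × ℕ)) → Bool) {d : ℕ} (c a₀ : Fin d → ℤ)
    (X Y : ℝ) (k : ℤ) : Prop :=
  ∀ (a : Fin d → ℤ) (u : ℕ → ℤ), IsSeq c a u → (∀ i, |((a i - a₀ i : ℤ) : ℝ)| ≤ X) →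
    IsEasy f Y (fun n => u n - k)

/-- The parameters `k` are easy for all families of degree at most `r` with coefficients at most
`X`, for all systems of sequences which satisfy the recurrence `c` and have initial values at
distance at most `X` from `a₀`. -/
def EasyParameter (f : ℕ × (List (ℕ × ℕ) × List (ℕ × ℕ)) → Bool) {d s t : ℕ} (r : ℕ)
    (c : Fin d → ℤ) (a₀ : Fin s × Fin d → ℤ) (X Y : ℝ) (k : Fin t → ℤ) : Prop :=
  ∀ (a : Fin s × Fin d → ℤ) (u : Fin s → ℕ → ℤ), (∀ j, IsSeq c (fun i => a (j, i)) (u j)) →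
    (∀ q, |((a q - a₀ q : ℤ) : ℝ)| ≤ X) →
    ∀ w : (Fin t → Fin (r + 1)) × (Fin s × Fin d → Fin (r + 1)) → ℤ, HasConstantCoefficient w →
      (∀ e, |(w e : ℝ)| ≤ X) → IsEasy f Y (fun n => value w k (fun q => u q.1 (n + q.2)))

theorem easy_of_cert {f : ℕ × (List (ℕ × ℕ) × List (ℕ × ℕ)) → Bool}
    (hfe : ∀ (y : ℕ) (p : List (ℕ × ℕ) × List (ℕ × ℕ)) (u : ℕ → ℤ), IsLRS p u →
      (f (y, p) = true ↔ ∃ q : ℕ, q ≤ y ∧ q.Prime ∧ ∀ n, ¬ (q : ℤ) ∣ u n)) {Y : ℝ} {v : ℕ → ℤ}
    (h : Certified Y v) : IsEasy f Y v := by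
  obtain ⟨p, hp, hpY, hcert⟩ := h
  refine ⟨fun n hn => (hcert n).1 (by rw [hn]; exact dvd_zero _), ⟨p, hp, hpY, hcert⟩,
    fun z hz => ?_⟩
  rw [hfe _ _ _ hz]
  exact ⟨p, Nat.le_floor hpY, hp, fun n => (hcert n).1⟩

theorem easyP {f : ℕ × (List (ℕ × ℕ) × List (ℕ × ℕ)) → Bool}
    (hfe : ∀ (y : ℕ) (p : List (ℕ × ℕ) × List (ℕ × ℕ)) (u : ℕ → ℤ), IsLRS p u →
      (f (y, p) = true ↔ ∃ q : ℕ, q ≤ y ∧ q.Prime ∧ ∀ n, ¬ (q : ℤ) ∣ u n)) {d s t r : ℕ}
    {c : Fin d → ℤ} {a₀ : Fin s × Fin d → ℤ} {X Y : ℝ} {k : Fin t → ℤ}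
    (h : Easy0 r c a₀ X Y k) : EasyParameter f r c a₀ X Y k := by
  intro a u hu ha w hw hwX
  apply easy_of_cert hfe
  obtain ⟨p, hp, hpY, hcert⟩ := h a u hu ha w hw hwX
  exact ⟨p, hp, hpY, hcert⟩

/-- the coefficients of `y_(0,0) - k` -/
def wv (d : ℕ) (hd : 1 ≤ d) : (Fin 1 → Fin 2) × (Fin 1 × Fin d → Fin 2) → ℤ := fun e =>
  (if e = (fun _ => 1, 0) then -1 else 0) +
    (if e = (0, Pi.single (0, ⟨0, by omega⟩) 1) then 1 else 0)

theorem value_wv (d : ℕ) (hd : 1 ≤ d) (k : Fin 1 → ℤ) (y : Fin 1 × Fin d → ℤ) :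
    value (r := 1) (wv d hd) k y = y (0, ⟨0, by omega⟩) - k 0 := by
  unfold value wv
  simp only [add_mul, Finset.sum_add_distrib, ite_mul, zero_mul, Finset.sum_ite_eq',
    Finset.mem_univ, if_true]
  have h1 : ∏ q : Fin 1 × Fin d, y q ^ (((Pi.single (0, ⟨0, by omega⟩) 1 :
      Fin 1 × Fin d → Fin 2) q : Fin 2) : ℕ) = y (0, ⟨0, by omega⟩) := by
    rw [Finset.prod_eq_single (0, ⟨0, by omega⟩)]
    · simp
    · intro q _ hq
      rw [Pi.single_eq_of_ne hq]
      simp
    · intro h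
      exact absurd (Finset.mem_univ _) h
  rw [h1]
  simp
  ring

theorem adm_wv (d : ℕ) (hd : 1 ≤ d) : HasConstantCoefficient (r := 1) (wv d hd) := by
  refine ⟨fun _ => 1, ?_, ?_⟩
  · unfold wv
    have h : ¬ (((fun _ => 1, 0) : (Fin 1 → Fin 2) × (Fin 1 × Fin d → Fin 2)) =
        (0, Pi.single (0, ⟨0, by omega⟩) 1)) := by
      intro h
      have := congrFun (congrArg Prod.fst h) 0
      simp at this
    rw [if_pos rfl, if_neg h]
    norm_num
  · intro f hf
    unfold wv
    have h : ¬ (((fun _ => 1, f) : (Fin 1 → Fin 2) × (Fin 1 × Fin d → Fin 2)) =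
        (0, Pi.single (0, ⟨0, by omega⟩) 1)) := by
      intro h
      have := congrFun (congrArg Prod.fst h) 0
      simp at this
    have h' : ¬ (((fun _ => 1, f) : (Fin 1 → Fin 2) × (Fin 1 × Fin d → Fin 2)) =
        (fun _ => 1, 0)) := by
      intro h
      exact hf (congrArg Prod.snd h)
    rw [if_neg h', if_neg h, add_zero]

theorem abs_wv (d : ℕ) (hd : 1 ≤ d) (e : (Fin 1 → Fin 2) × (Fin 1 × Fin d → Fin 2)) :
    |((wv d hd e : ℤ) : ℝ)| ≤ 1 := by
  have h : |wv d hd e| ≤ 1 := by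
    unfold wv
    split_ifs <;> simp
  exact_mod_cast h

theorem result :
    -- one total computable function, which reads all linear recurrence sequences and never errs
    ∃ f : ℕ × (List (ℕ × ℕ) × List (ℕ × ℕ)) → Bool, Computable f ∧
    (∀ (y : ℕ) (z : List (ℕ × ℕ) × List (ℕ × ℕ)) (v : ℕ → ℤ), IsLRS z v → f (y, z) = true →
      ∀ n, v n ≠ 0) ∧
    -- every recurrence with squarefree characteristic polynomial
    ∀ (d : ℕ) (hd : 1 ≤ d) (c : Fin d → ℤ), c ⟨d - 1, by omega⟩ ≠ 0 →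
      Squarefree ((charPoly c).map (Int.castRingHom ℚ)) →
      -- (1) the values of the sequences which satisfy the recurrence
      (∃ A δ : ℝ, 0 < A ∧ 0 < δ ∧ ∃ H₀ : ℕ, ∀ H : ℕ, H₀ ≤ H → ∀ (a₀ : Fin d → ℤ) (b : ℤ),
        (Nat.card {k : ℤ // |k - b| ≤ H ∧
          ¬ EasyValue f c a₀ ((H : ℝ) ^ δ) (Real.log H ^ A) k} : ℝ) ≤
          (H : ℝ) ^ (-δ) * (2 * H + 1)) ∧
      -- (2) families which depend polynomially on `t` parameters
      ∀ s t r : ℕ, ∃ A δ : ℝ, 0 < A ∧ 0 < δ ∧ ∃ H₀ : ℕ, ∀ H : ℕ, H₀ ≤ H →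
        ∀ (a₀ : Fin s × Fin d → ℤ) (b : Fin t → ℤ),
        (Nat.card {k : Fin t → ℤ // (∀ i, |k i - b i| ≤ H) ∧
          ¬ EasyParameter f r c a₀ ((H : ℝ) ^ δ) (Real.log H ^ A) k} : ℝ) ≤
          (H : ℝ) ^ (-δ) * (2 * H + 1) ^ t := by
  classical
  obtain ⟨f, hf, hfe⟩ := t10
  refine ⟨f, hf, fun y z v hv ht n hn => ?_, fun d hd c hc hsq => ?_⟩
  · obtain ⟨q, _, _, hq⟩ := (hfe y z v hv).1 ht
    apply hq n
    rw [hn]
    exact dvd_zero _
  have hbx : ∀ {t : ℕ} (b : Fin t → ℤ) (H : ℕ) (k : Fin t → ℤ),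
      k ∈ bx b H ↔ ∀ i, |k i - b i| ≤ H := by
    intro t b H k
    unfold bx
    rw [Fintype.mem_piFinset]
    refine forall_congr' fun i => ?_
    rw [Finset.mem_Icc, abs_le]
    constructor
    · rintro ⟨h1, h2⟩
      constructor <;> linarith
    · rintro ⟨h1, h2⟩
      constructor <;> linarith
  have hgen : ∀ s t r : ℕ, ∃ A δ : ℝ, 0 < A ∧ 0 < δ ∧ ∃ H₀ : ℕ, ∀ H : ℕ, H₀ ≤ H →
        ∀ (a₀ : Fin s × Fin d → ℤ) (b : Fin t → ℤ),
        (Nat.card {k : Fin t → ℤ // (∀ i, |k i - b i| ≤ H) ∧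
          ¬ EasyParameter f r c a₀ ((H : ℝ) ^ δ) (Real.log H ^ A) k} : ℝ) ≤
          (H : ℝ) ^ (-δ) * (2 * H + 1) ^ t := by
    intro s t r
    obtain ⟨A, δ, hA, hδ, H₀, hmain⟩ := main d hd c hc hsq s t r
    refine ⟨A, δ, hA, hδ, H₀, fun H hH a₀ b => ?_⟩
    have h1 := hmain H hH a₀ b
    rw [mul_comm]
    refine le_trans ?_ h1
    have hfin : Finite {k : Fin t → ℤ // k ∈ bx b H ∧
        ¬ Easy0 r c a₀ ((H : ℝ) ^ δ) (Real.log H ^ A) k} :=
      Finite.of_injective (fun v => (⟨v.1, v.2.1⟩ : {v // v ∈ bx b H})) (by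
        intro v w hvw
        exact Subtype.ext (congrArg (fun z : {v // v ∈ bx b H} => z.1) hvw))
    have h2 : Nat.card {k : Fin t → ℤ // (∀ i, |k i - b i| ≤ H) ∧
          ¬ EasyParameter f r c a₀ ((H : ℝ) ^ δ) (Real.log H ^ A) k} ≤
        Nat.card {k : Fin t → ℤ // k ∈ bx b H ∧
          ¬ Easy0 r c a₀ ((H : ℝ) ^ δ) (Real.log H ^ A) k} := by
      refine Nat.card_le_card_of_injective
        (fun k => ⟨k.1, (hbx _ _ _).2 k.2.1, fun h => k.2.2 (easyP hfe h)⟩) ?_
      intro v v' h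
      have h5 := Subtype.ext_iff.1 h
      exact Subtype.ext h5
    exact_mod_cast h2
  refine ⟨?_, hgen⟩
  obtain ⟨A, δ, hA, hδ, H₀, hmain⟩ := hgen 1 1 1
  refine ⟨A, δ, hA, hδ, max H₀ 1, fun H hH a₀ b => ?_⟩
  have hH1 : 1 ≤ H := (le_max_right _ _).trans hH
  have hHr : (1 : ℝ) ≤ H := by exact_mod_cast hH1
  have h1 := hmain H ((le_max_left _ _).trans hH) (fun q => a₀ q.2) (fun _ => b)
  rw [pow_one] at h1
  refine le_trans ?_ h1
  have hfin : Finite {k : Fin 1 → ℤ // (∀ i, |k i - (fun _ => b) i| ≤ (H : ℤ)) ∧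
      ¬ EasyParameter f 1 c (fun q : Fin 1 × Fin d => a₀ q.2) ((H : ℝ) ^ δ)
        (Real.log H ^ A) k} :=
    Finite.of_injective (fun v => (⟨v.1, (hbx _ _ _).2 v.2.1⟩ :
      {v // v ∈ bx (fun _ : Fin 1 => b) H})) (by
        intro v w hvw
        exact Subtype.ext (congrArg (fun z : {v // v ∈ bx (fun _ : Fin 1 => b) H} => z.1) hvw))
  have h2 : Nat.card {k : ℤ // |k - b| ≤ H ∧
          ¬ EasyValue f c a₀ ((H : ℝ) ^ δ) (Real.log H ^ A) k} ≤
      Nat.card {k : Fin 1 → ℤ // (∀ i, |k i - (fun _ => b) i| ≤ (H : ℤ)) ∧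
      ¬ EasyParameter f 1 c (fun q : Fin 1 × Fin d => a₀ q.2) ((H : ℝ) ^ δ)
        (Real.log H ^ A) k} := by
    refine Nat.card_le_card_of_injective
      (fun k => ⟨fun _ => k.1, fun _ => k.2.1, fun h => k.2.2 ?_⟩) ?_
    · intro a u hu ha
      have h3 := h (fun q => a q.2) (fun _ => u) (fun _ => hu) (fun q => ha q.2) (wv d hd)
        (adm_wv d hd) (fun e => (abs_wv d hd e).trans (Real.one_le_rpow hHr hδ.le))
      have e : (fun n => value (r := 1) (wv d hd) (fun _ => k.1)
          (fun q : Fin 1 × Fin d => u (n + q.2))) = fun n => u n - k.1 := by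
        funext n
        rw [value_wv]
        simp
      rw [e] at h3
      exact h3
    · intro v v' h
      apply Subtype.ext
      exact congrFun (Subtype.ext_iff.1 h) 0
  exact_mod_cast h2

end Pool.Agent.Results.MP_8d13b5_lc.ValuesOfRecurrences
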